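import Pool.Agent.H78.S.Targets

/-!
# Theorem S (MP_9d0bb7_lc): row TEK
-/

set_option autoImplicit false

open Set Pool.Agent.H77.BC Pool.Agent.H78.S
open scoped Pointwise

namespace Pool.Agent.H86.S

theorem R_bot {M : Type} (U : RU M) {Γ : Type} [Group Γ] [Cod M Γ] :
    U.R ((⊥ : Subgroup Γ) : Set Γ) = 0 := by
  rw [Subgroup.coe_bot]
  exact ((l_RKA U).fin (D_singleton _) (singleton_nonempty _)).2 (finite_singleton _)

theorem pf_TEK (hCOO : T_COO) (hLNK : T_LNK) (hHIC : T_HIC) (hHIJ : T_HIJ) (hCTB : T_CTB)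
    (hLRK : T_LRK) (hIDX : T_IDX) : T_TEK := by
  intro M U G S _ _ _ _ n x hF hN i hi
  classical
  have _ := hF.dg
  have _ := hF.ful
  obtain ⟨hctx, -, -⟩ := hHIC U x hF i hi
  obtain ⟨-, hTc, -⟩ := hHIJ U x hF 0 i (Ne.symm hi)
  obtain ⟨-, -, -, -, hTD, -, hTH, -, hHX, -⟩ := hCTB U hF.act _ _ _ _ _ hctx
  have hTX : ∀ t ∈ TT U G x 0, ∀ y ∈ XX U G x i, t • y ∈ XX U G x i :=
    fun t ht y hy => hHX t (hTH ht) y hy
  have heX : x 0 ∈ XX U G x i := hctx.mem
  have hL : ∀ E ∈ LL U G x i, Nonempty (LF U G x i E) := fun E hE => hE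
  have L : ∀ E ∈ LL U G x i, LF U G x i E := fun E hE => (hL E hE).some
  have hlnk := fun E (hE : E ∈ LL U G x i) => hLNK U hF.act _ _ _ _ _ hctx E (L E hE)
  obtain ⟨-, hcoo, -, -⟩ := hCOO U x hF hN i hi L
  set T := TT U G x 0 with hT
  -- multipliers
  have hne : ∀ E hE, ∀ t ∈ T, (L E hE).f (t • x 0) ≠ 0 := fun E hE t ht =>
    ((hlnk E hE).1 t ht).1
  have hmul : ∀ E hE, ∀ t ∈ T, ∀ s ∈ T, (L E hE).f ((t * s) • x 0) =
      (L E hE).f (t • x 0) * (L E hE).f (s • x 0) := by
    intro E hE t ht s hs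
    rw [mul_smul]
    exact ((hlnk E hE).1 t ht).2 _ (hTX s hs _ heX)
  have hkap : ∀ E hE, ∀ t, t ∈ kap T E ↔ t ∈ T ∧ (L E hE).f (t • x 0) = 1 :=
    fun E hE => (hlnk E hE).2.2.1
  have hkD : ∀ E ∈ LL U G x i, U.D (kap T E : Set G) := fun E hE =>
    (hlnk E hE).2.2.2.2.2.1
  have hkT : ∀ E : Set (S × S), kap T E ≤ T := fun E => inf_le_left
  have hTET : ∀ E, TE U G x i E ≤ T := fun E => inf_le_left
  -- (B)
  have hB : ∀ E ∈ LL U G x i, ∀ F, E ≠ F → TE U G x i F ≤ kap T E := by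
    intro E hE F hEF
    refine inf_le_right.trans ?_
    exact iInf₂_le E ⟨hE, fun h => hEF h⟩
  have hmemTE : ∀ E, ∀ t ∈ T, (∀ F ∈ LL U G x i, F ≠ E → t ∈ kap T F) →
      t ∈ TE U G x i E := by
    intro E t ht h
    have h2 : t ∈ (⨅ F ∈ LL U G x i \ {E}, kap T F : Subgroup G) := by
      simp only [Subgroup.mem_iInf]
      intro F hFE
      exact h F hFE.1 (fun h' => hFE.2 h')
    exact ⟨ht, h2⟩
  -- uniqueness
  have key1 : ∀ t ∈ T, (∀ F ∈ LL U G x i, t ∈ kap T F) → t = 1 := by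
    intro t ht h
    obtain ⟨t', -, ht'⟩ := hcoo (fun E hE => 1) (fun E hE => one_ne_zero)
    have h1 := ht' t ⟨ht, fun E hE => ((hkap E hE t).1 (h E hE)).2⟩
    have h2 := ht' 1 ⟨T.one_mem, fun E hE => ((hkap E hE 1).1 (kap T E).one_mem).2⟩
    rw [h1, h2]
  -- splitting
  have key2 : ∀ t ∈ T, ∀ F₀ ∈ LL U G x i, ∃ t₀ ∈ TE U G x i F₀, t₀⁻¹ * t ∈ kap T F₀ := by
    intro t ht F₀ hF₀
    obtain ⟨t₀, ⟨ht₀, h₀⟩, -⟩ := hcoo
      (fun E hE => if E = F₀ then (L E hE).f (t • x 0) else 1) (by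
        intro E hE
        split_ifs
        · exact hne E hE t ht
        · exact one_ne_zero)
    refine ⟨t₀, hmemTE F₀ t₀ ht₀ ?_, ?_⟩
    · intro F hF' hFF
      rw [hkap F hF']
      refine ⟨ht₀, ?_⟩
      have := h₀ F hF'
      rwa [if_neg hFF] at this
    · rw [hkap F₀ hF₀]
      refine ⟨T.mul_mem (T.inv_mem ht₀) ht, ?_⟩
      have h1 := h₀ F₀ hF₀
      rw [if_pos rfl] at h1
      have h2 := hmul F₀ hF₀ t₀ ht₀ (t₀⁻¹ * t) (T.mul_mem (T.inv_mem ht₀) ht)
      rw [mul_inv_cancel_left, h1] at h2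
      have h3 := hne F₀ hF₀ t ht
      have h4 : (L F₀ hF₀).f (t • x 0) * 1 =
          (L F₀ hF₀).f (t • x 0) * (L F₀ hF₀).f ((t₀⁻¹ * t) • x 0) := by
        rw [mul_one]
        exact h2
      exact (mul_left_cancel₀ h3 h4).symm
  -- nontrivial elements
  have key3 : ∀ F ∈ LL U G x i, ∃ t ∈ TE U G x i F, t ∉ kap T F := by
    intro F hF'
    have _ : Infinite (L F hF').K := (L F hF').line.inf
    obtain ⟨k, hk⟩ := Infinite.exists_notMem_finset ({0, 1} : Finset (L F hF').K)
    simp only [Finset.mem_insert, Finset.mem_singleton, not_or] at hk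
    obtain ⟨t, ht, htk⟩ := (hlnk F hF').2.1 k hk.1
    obtain ⟨t₀, ht₀, h₀⟩ := key2 t ht F hF'
    refine ⟨t₀, ht₀, fun h => ?_⟩
    have h1 : t ∈ kap T F := by
      have := (kap T F).mul_mem h h₀
      rwa [mul_inv_cancel_left] at this
    have h2 := ((hkap F hF' t).1 h1).2
    exact hk.2 (htk.symm.trans h2)
  -- intersections
  have hbot : ∀ E ∈ LL U G x i, TE U G x i E ⊓ kap T E = ⊥ := by
    intro E hE
    rw [eq_bot_iff]
    rintro t ⟨h1, h2⟩
    rw [Subgroup.mem_bot]
    refine key1 t (hTET E h1) ?_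
    intro F hF'
    by_cases hFE : F = E
    · rw [hFE]; exact h2
    · exact hB F hF' E hFE h1
  -- rank
  have hRK : ∀ E ∈ LL U G x i, U.D (TE U G x i E : Set G) ∧
      U.R (TE U G x i E : Set G) = 1 := by
    intro E hE
    have hfin : (LL U G x i \ {E}).Finite := (hN.fin i hi).subset sdiff_subset
    have hcard : (LL U G x i \ {E}).ncard = n - 1 := by
      have := ncard_sdiff_singleton_add_one hE (hN.fin i hi)
      rw [hN.card i hi] at this
      omega
    have _ : Finite (LL U G x i \ {E} : Set (Set (S × S))) := hfin.to_subtype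
    let e : (LL U G x i \ {E} : Set (Set (S × S))) ≃ Fin (n - 1) :=
      Finite.equivFinOfCardEq hcard
    obtain ⟨h1, h2⟩ := hLRK U hF.act _ _ _ _ _ hctx (n - 1) (fun j => (e.symm j).1)
      (fun a b hab => e.symm.injective (Subtype.ext hab)) (fun j => (e.symm j).2.1)
    have heq : (T ⊓ ⨅ j, kap T ((e.symm j).1) : Subgroup G) = TE U G x i E := by
      unfold TE
      congr 1
      apply le_antisymm
      · refine le_iInf₂ fun F hF' => ?_
        have := iInf_le (fun j => kap T ((e.symm j).1)) (e ⟨F, hF'⟩)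
        simpa using this
      · refine le_iInf fun j => ?_
        exact iInf₂_le _ (e.symm j).2
    rw [heq] at h1 h2
    refine ⟨h1, ?_⟩
    have hsum : ∑ j : Fin (n - 1), (U.R (T : Set G) - U.R (kap T ((e.symm j).1) : Set G)) =
        n - 1 := by
      have : ∀ j : Fin (n - 1),
          U.R (T : Set G) - U.R (kap T ((e.symm j).1) : Set G) = 1 := by
        intro j
        have h3 := hN.rkE i hi _ (e.symm j).2.1
        have h4 := hN.rk
        rw [← hT] at h3 h4
        omega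
      rw [Finset.sum_congr rfl (fun j _ => this j)]
      simp
    rw [hsum, hN.rk] at h2
    have := hF.pos
    omega
  -- connectedness of `TE`
  have hTEc : ∀ E ∈ LL U G x i, Conn U (TE U G x i E) := by
    intro E hE
    obtain ⟨hD, hR⟩ := hRK E hE
    refine ⟨hD, ?_⟩
    intro A hA hAD hAR
    rw [hR] at hAR
    -- the product of `A` and the kernel
    let Q : Subgroup G :=
      { carrier := {g | ∃ a ∈ A, ∃ k ∈ kap T E, g = a * k}
        one_mem' := ⟨1, A.one_mem, 1, (kap T E).one_mem, (mul_one 1).symm⟩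
        mul_mem' := by
          rintro _ _ ⟨a, ha, k, hk, rfl⟩ ⟨b, hb, l, hl, rfl⟩
          refine ⟨a * b, A.mul_mem ha hb, k * l, (kap T E).mul_mem hk hl, ?_⟩
          have := hN.com k (hkT E hk) b (hTET E (hA hb))
          calc a * k * (b * l) = a * (k * b) * l := by group
            _ = a * (b * k) * l := by rw [this]
            _ = a * b * (k * l) := by group
        inv_mem' := by
          rintro _ ⟨a, ha, k, hk, rfl⟩
          refine ⟨a⁻¹, A.inv_mem ha, k⁻¹, (kap T E).inv_mem hk, ?_⟩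
          have := hN.com a⁻¹ (hTET E (hA (A.inv_mem ha))) k⁻¹
            (hkT E ((kap T E).inv_mem hk))
          rw [mul_inv_rev, this] }
    have hQset : (Q : Set G) = (fun p : G × G => p.1 * p.2) '' ((A : Set G) ×ˢ
        (kap T E : Set G)) := by
      ext g
      constructor
      · rintro ⟨a, ha, k, hk, rfl⟩
        exact ⟨(a, k), ⟨ha, hk⟩, rfl⟩
      · rintro ⟨⟨a, k⟩, ⟨ha, hk⟩, rfl⟩
        exact ⟨a, ha, k, hk, rfl⟩
    have hQD : U.D (Q : Set G) := by
      rw [hQset]
      exact DFn_image hF.dg.mul (D_prod hAD (hkD E hE))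
    have hAQ : A ≤ Q := fun a ha => ⟨a, ha, 1, (kap T E).one_mem, (mul_one a).symm⟩
    have hkQ : kap T E ≤ Q := fun k hk => ⟨1, A.one_mem, k, hk, (one_mul k).symm⟩
    have hQT : Q ≤ T := by
      rintro _ ⟨a, ha, k, hk, rfl⟩
      exact T.mul_mem (hTET E (hA ha)) (hkT E hk)
    have hidx := hIDX U Q A (kap T E) hQD hAD (hkD E hE) hAQ hkQ (fun t ht => ht)
    have hAk : A ⊓ kap T E = ⊥ := by
      rw [eq_bot_iff, ← hbot E hE]
      exact inf_le_inf_right _ hA
    rw [hAk, R_bot] at hidx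
    have h1 := hN.rkE i hi E hE
    rw [← hT] at h1
    have h2 := hTc.2 Q hQT hQD (by
      rw [show U.R (T : Set G) = n from hN.rk]
      omega)
    apply le_antisymm hA
    intro t ht
    have h3 : t ∈ Q := by
      rw [h2]
      exact hTET E ht
    obtain ⟨a, ha, k, hk, rfl⟩ := h3
    have h4 : k ∈ TE U G x i E ⊓ kap T E := by
      refine ⟨?_, hk⟩
      have := (TE U G x i E).mul_mem ((TE U G x i E).inv_mem (hA ha)) ht
      rwa [inv_mul_cancel_left] at this
    rw [hbot E hE, Subgroup.mem_bot] at h4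
    rw [h4, mul_one]
    exact ha
  -- the kernels are generated
  have hsup : ∀ E ∈ LL U G x i, kap T E = ⨆ F ∈ LL U G x i \ {E}, TE U G x i F := by
    intro E hE
    set Q : Subgroup G := ⨆ F ∈ LL U G x i \ {E}, TE U G x i F with hQ
    apply le_antisymm
    · have hfin : (LL U G x i \ {E}).Finite := (hN.fin i hi).subset sdiff_subset
      have key : ∀ s : Finset (Set (S × S)), (∀ F ∈ s, F ∈ LL U G x i \ {E}) →
          ∀ t ∈ T, (∀ F ∈ LL U G x i, F ∉ s → t ∈ kap T F) → t ∈ Q := by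
        intro s
        induction s using Finset.induction_on with
        | empty =>
          intro _ t ht h
          rw [key1 t ht (fun F hF' => h F hF' (by simp))]
          exact Q.one_mem
        | insert F₀ s hF₀ ih =>
          intro hs t ht h
          have hF₀L := hs F₀ (Finset.mem_insert_self _ _)
          obtain ⟨t₀, ht₀, h₀⟩ := key2 t ht F₀ hF₀L.1
          have h1 : t₀ ∈ Q := (le_iSup₂ (f := fun F (_ : F ∈ LL U G x i \ {E}) =>
            TE U G x i F) F₀ hF₀L) ht₀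
          have h2 : t₀⁻¹ * t ∈ Q := by
            refine ih (fun F hF' => hs F (Finset.mem_insert_of_mem hF')) _
              (T.mul_mem (T.inv_mem (hTET _ ht₀)) ht) ?_
            intro F hF' hFs
            by_cases hFF : F = F₀
            · rw [hFF]; exact h₀
            · refine (kap T F).mul_mem ((kap T F).inv_mem (hB F hF' F₀ hFF ht₀))
                (h F hF' ?_)
              rw [Finset.mem_insert, not_or]
              exact ⟨hFF, hFs⟩
          have := Q.mul_mem h1 h2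
          rwa [mul_inv_cancel_left] at this
      intro t ht
      refine key hfin.toFinset (fun F hF' => hfin.mem_toFinset.1 hF') t (hkT E ht) ?_
      intro F hF' hFs
      rw [hfin.mem_toFinset] at hFs
      have : F = E := by
        by_contra hne'
        exact hFs ⟨hF', hne'⟩
      rw [this]
      exact ht
    · refine iSup₂_le fun F hF' => ?_
      exact hB E hE F (fun h => hF'.2 h.symm)
  -- connectedness of the kernels
  have hkc : ∀ E ∈ LL U G x i, Conn U (kap T E) := by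
    intro E hE
    refine ⟨hkD E hE, ?_⟩
    intro A hA hAD hAR
    apply le_antisymm hA
    rw [hsup E hE]
    refine iSup₂_le fun F hF' => ?_
    have hTEk : TE U G x i F ≤ kap T E := hB E hE F (fun h => hF'.2 h.symm)
    obtain ⟨hD, -⟩ := hRK F hF'.1
    have h1 := (l_GRB U) (kap T E) A (TE U G x i F) (hkD E hE) hAD hD hA hTEk
    have h2 := (hTEc F hF'.1).2 (A ⊓ TE U G x i F) inf_le_right
      (by rw [Subgroup.coe_inf]; exact D_inter hAD hD) (by omega)
    rw [← h2]
    exact inf_le_left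
  refine ⟨fun E hE => ⟨(hRK E hE).1, (hRK E hE).2, hTEc E hE, hkc E hE, hbot E hE,
    hsup E hE⟩, fun E hE F _ hEF => hB E hE F hEF, ?_, ?_⟩
  · intro E hE F _ h
    by_contra hEF
    obtain ⟨t, ht, ht'⟩ := key3 E hE
    rw [h] at ht
    exact ht' (hB E hE F hEF ht)
  · intro E hE F hF' h
    by_contra hEF
    obtain ⟨t, ht, ht'⟩ := key3 F hF'
    rw [← h] at ht'
    exact ht' (hB E hE F hEF ht)

end Pool.Agent.H86.S
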