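import Pool.Agent.H78.S.Targets

/-!
# Theorem S (MP_9d0bb7_lc): row OMG
-/

set_option autoImplicit false

open Set Pool.Agent.H77.BC Pool.Agent.H78.S
open scoped Pointwise

namespace Pool.Agent.H86.S

theorem mv_mul {G S : Type} [Group G] [MulAction G S] (g h : G) (E : Set (S × S)) :
    mv (g * h) E = mv g (mv h E) := by
  ext p
  unfold mv
  simp only [mem_ofPred_eq, mul_inv_rev, mul_smul]

theorem mv_one {G S : Type} [Group G] [MulAction G S] (E : Set (S × S)) :
    mv (1 : G) E = E := by
  ext p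
  unfold mv
  simp only [mem_ofPred_eq, inv_one, one_smul, Prod.mk.eta]

/-- the points of a frame are different -/
theorem frm_inj {M : Type} (U : RU M) {G S : Type} [Group G] [MulAction G S] [Cod M G]
    [Cod M S] {n : ℕ} (x : Fin (n + 2) → S) (hF : Frm U G x) (hHIJ : T_HIJ) :
    Function.Injective x := by
  intro a b hab
  by_contra hne
  obtain ⟨-, -, -, -, -, -, -, -, hbig, hfix, -, -, -⟩ := hHIJ U x hF a b hne
  obtain ⟨Y, hYD, hYne, -, hYO, hYR⟩ := hbig
  have hsub : Y ⊆ {x a} := by
    intro y hy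
    obtain ⟨h, hh, rfl⟩ := hYO hy
    have := hfix b (Ne.symm hne) h hh
    rw [mem_singleton_iff, hab]
    exact this
  have h0 : U.R Y = 0 := ((l_RKA U).fin hYD hYne).2 ((finite_singleton _).subset hsub)
  have h1 := hF.rk
  have h2 := hF.pos
  omega

theorem pf_OMG (hFAI : T_FAI) (hSYM : T_SYM) (hSWP : T_SWP) (hLCJ : T_LCJ) (hHIJ : T_HIJ)
    (hHIC : T_HIC) : T_OMG := by
  intro M U G S _ _ _ _ n x hF hI hN
  classical
  have hinj := frm_inj U x hF hHIJ
  obtain ⟨hS1, hS2⟩ := hSYM U x hF
  have h10 : (1 : Fin (n + 2)) ≠ 0 := by simp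
  -- a group element which fixes all points is trivial
  have hone : ∀ g : G, (∀ i, g • x i = x i) → g = 1 := by
    intro g₀ hg₀
    by_contra hg1
    have hfinK : Finite (LL U G x 1) := (hN.fin 1 h10).to_subtype
    have _ := Fintype.ofFinite (LL U G x 1)
    have hcK : Fintype.card (LL U G x 1) = n := by
      rw [← Nat.card_eq_fintype_card]
      exact hN.card 1 h10
    let p : Fin (n + 2) → Prop := fun a => ¬ (a = 0 ∨ a = 1)
    have hp : Fintype.card {a // p a} = n := by
      rw [Fintype.card_subtype_compl, Fintype.card_fin]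
      have : Fintype.card {a : Fin (n + 2) // a = 0 ∨ a = 1} = 2 := by
        rw [Fintype.card_subtype]
        have : (Finset.univ.filter (fun a : Fin (n + 2) => a = 0 ∨ a = 1)) = {0, 1} := by
          ext a
          simp
        rw [this]
        exact Finset.card_pair (Ne.symm h10)
      rw [this]
      rfl
    let ex : Equiv.Perm {a // p a} → Equiv.Perm (Fin (n + 2)) := fun σ =>
      Equiv.Perm.ofSubtype σ
    have hex : Function.Injective ex := Equiv.Perm.ofSubtype_injective
    have hex0 : ∀ σ, ex σ 0 = 0 := fun σ =>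
      Equiv.Perm.ofSubtype_apply_of_not_mem σ (by simp [p])
    have hex1 : ∀ σ, ex σ 1 = 1 := fun σ =>
      Equiv.Perm.ofSubtype_apply_of_not_mem σ (by simp [p])
    choose ge hge using fun σ : Equiv.Perm {a // p a} => hS2 (ex σ)
    let gg : Equiv.Perm {a // p a} × Bool → G := fun q => ge q.1 * (if q.2 then g₀ else 1)
    have hgg : ∀ q, Pm x (gg q) (ex q.1) := by
      rintro ⟨σ, b⟩ i
      change (ge σ * (if b then g₀ else 1)) • x i = _
      rw [mul_smul]
      cases b
      · rw [if_neg (by simp), one_smul]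
        exact hge σ i
      · rw [if_pos rfl, hg₀ i]
        exact hge σ i
    have hmap : ∀ q, ∀ E ∈ LL U G x 1, mv (gg q) E ∈ LL U G x 1 := by
      intro q E hE
      have := (hLCJ U x hF (gg q) (ex q.1) (hgg q) (hex0 _) 1 h10 E hE).1
      rwa [hex1] at this
    let F : Equiv.Perm {a // p a} × Bool → (LL U G x 1 → LL U G x 1) := fun q E =>
      ⟨mv (gg q) E.1, hmap q E.1 E.2⟩
    have hFi : ∀ q, Function.Injective (F q) := by
      intro q E E' h
      apply Subtype.ext
      have h1 : mv (gg q) E.1 = mv (gg q) E'.1 := congrArg Subtype.val h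
      have h2 := congrArg (mv (gg q)⁻¹) h1
      rwa [← mv_mul, ← mv_mul, inv_mul_cancel, mv_one, mv_one] at h2
    let P : Equiv.Perm {a // p a} × Bool → Equiv.Perm (LL U G x 1) := fun q =>
      Equiv.ofBijective (F q) ⟨hFi q, Finite.surjective_of_injective (hFi q)⟩
    have hPi : Function.Injective P := by
      intro q q' h
      have h1 : ∀ E ∈ LL U G x 1, mv (gg q) E = mv (gg q') E := by
        intro E hE
        have := DFunLike.congr_fun h ⟨E, hE⟩
        exact congrArg Subtype.val this
      have h2 : (gg q)⁻¹ * gg q' = 1 := by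
        have hpm : Pm x ((gg q)⁻¹ * gg q') ((ex q.1)⁻¹ * ex q'.1) :=
          (hS1 _ _ _ _ (hS1 _ _ _ _ (hgg q) (hgg q)).2 (hgg q')).1
        have hs0 : ((ex q.1)⁻¹ * ex q'.1) 0 = 0 := by
          rw [Equiv.Perm.mul_apply, hex0, Equiv.Perm.inv_eq_iff_eq, hex0]
        have hs1 : ((ex q.1)⁻¹ * ex q'.1) 1 = 1 := by
          rw [Equiv.Perm.mul_apply, hex1, Equiv.Perm.inv_eq_iff_eq, hex1]
        refine hFAI U x hF hI hN _ _ hpm hs0 1 h10 hs1 ?_
        intro E hE
        rw [← (hLCJ U x hF _ _ hpm hs0 1 h10 E hE).2.1, mv_mul, ← h1 E hE, ← mv_mul,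
          inv_mul_cancel, mv_one]
      have h3 : gg q' = gg q := by
        rw [inv_mul_eq_one] at h2
        exact h2.symm
      have h4 : ex q.1 = ex q'.1 := by
        apply Equiv.ext
        intro i
        apply hinj
        rw [← hgg q i, ← hgg q' i, h3]
      have h5 : q.1 = q'.1 := hex h4
      refine Prod.ext h5 ?_
      have h6 : ge q'.1 * (if q'.2 then g₀ else 1) = ge q.1 * (if q.2 then g₀ else 1) := h3
      rw [h5] at h6
      have h7 := mul_left_cancel h6
      rcases hq : q.2 with _ | _ <;> rcases hq' : q'.2 with _ | _ <;>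
        simp only [hq, hq', if_true, Bool.false_eq_true, if_false] at h7 ⊢
      · exact absurd h7 hg1
      · exact absurd h7.symm hg1
    have hcard := Fintype.card_le_of_injective P hPi
    rw [Fintype.card_prod, Fintype.card_perm, Fintype.card_perm, hcK, hp,
      Fintype.card_bool] at hcard
    have := Nat.factorial_pos n
    omega
  have huniq : ∀ (g h : G) (σ : Equiv.Perm (Fin (n + 2))), Pm x g σ → Pm x h σ → g = h := by
    intro g h σ hg hh
    have h1 := (hS1 _ _ _ _ (hS1 _ _ _ _ hg hg).2 hh).1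
    rw [inv_mul_cancel] at h1
    have h2 := hone _ (fun i => h1 i)
    rw [inv_mul_eq_one] at h2
    exact h2
  choose w hw using hS2
  refine ⟨MonoidHom.mk' w ?_, ?_⟩
  · intro σ τ
    exact huniq _ _ _ (hw _) (hS1 _ _ _ _ (hw σ) (hw τ)).1
  · refine ⟨hw, fun g σ hg => huniq _ _ _ hg (hw σ), ?_⟩
    intro i j hij
    obtain ⟨v, hv, hv'⟩ := hSWP U x hF i j hij
    change w (Equiv.swap i j) ∈ _
    rw [← huniq _ _ _ hv' (hw (Equiv.swap i j))]
    exact hv

end Pool.Agent.H86.S
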